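import Pool.Agent.R409.RG.Art

/-!
# Mertens constants at `s = 0` for the conjugacy classes of a Galois group

Let `L/K` be a Galois extension of number fields with group `G`, `S` a finite set of finite primes of
`K` containing the ramified ones, and for a conjugacy class `C` of `G`, `γ > π/2`, `θ > 1` let

`N_C(T) = ∑ κ_γ(k log q_v / T) / k`, `κ_γ(u) = e^{iγu} / Γ(1 + u)`,

be the finite sum over the primes `v ∉ S` and the `k ≥ 1` with `q_v^k ≤ exp (exp (θ T))` and
`Frob_v^k ∈ C`. These sums know nothing but the number of the primes with a given Frobenius class. We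
prove, using only that the Artin L-series are meromorphic on the real segment `[0, 1]` (Brauer), that

`N_C(T) = c_C - m_C (log T - Λ_γ) + O(1/T)`

with constants `c_C`, `m_C` which do not depend on `γ` and `θ`, and that for every character `χ` of `G`
the order and the leading coefficient at `s = 0` are

`ord_{s=0} L_S(s, χ) = ∑_C χ(C) m_C`, `L_S^*(0, χ) = exp (∑_C χ(C) c_C)`.

So Stark's conjecture for `L/K` is a property of the finitely many constants `c_C`: the numbers
`R_S(χ, φ) exp (- ∑_C χ(C) c_C)` have to be Galois equivariant in `χ`.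
-/

set_option autoImplicit false

namespace Pool.Agent.Results.MP_46b841_nt.ClassConstants

open NumberField IsDedekindDomain Filter Topology

section defs

variable {K : Type} [Field K] [NumberField K] {G : Type} [Group G]

/-- The Artin L-series `L_S(s, ρ) = ∏_{v ∉ S} det(1 - q_v^{-s} ρ(Frob_v))⁻¹`. -/
noncomputable def LFun (S : Finset (HeightOneSpectrum (𝓞 K))) (frob : HeightOneSpectrum (𝓞 K) → G)
    {n : ℕ} (ρ : G →* Matrix (Fin n) (Fin n) ℂ) (s : ℂ) : ℂ :=
  ∏' v : {v : HeightOneSpectrum (𝓞 K) // v ∉ S},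
    ((1 - (Ideal.absNorm v.1.asIdeal : ℂ) ^ (-s) • ρ (frob v.1)).det)⁻¹

/-- `F` is meromorphic at the points of the real segment `[0, 1]`, and it is the L-series for
`Re s > 1`. -/
def IsContinuation (S : Finset (HeightOneSpectrum (𝓞 K))) (frob : HeightOneSpectrum (𝓞 K) → G)
    {n : ℕ} (ρ : G →* Matrix (Fin n) (Fin n) ℂ) (F : ℂ → ℂ) : Prop :=
  (∀ x : ℝ, 0 ≤ x → x ≤ 1 → MeromorphicAt F (x : ℂ)) ∧ ∀ s : ℂ, 1 < s.re → F s = LFun S frob ρ s

/-- The value of the character of `ρ` on the conjugacy class `C`. -/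
noncomputable def chi {n : ℕ} (ρ : G →* Matrix (Fin n) (Fin n) ℂ) (C : ConjClasses G) : ℂ :=
  (ρ C.out).trace

/-- The weight `κ_γ(u) = e^{iγu} / Γ(1 + u)`. -/
noncomputable def weight (γ u : ℝ) : ℂ :=
  Complex.exp (Complex.I * (γ * u)) / Complex.Gamma (1 + u)

/-- `N_C(T) = ∑ κ_γ(k log q_v / T) / k`, the sum over the `v ∉ S` and `k ≥ 1` with
`q_v^k ≤ exp (exp (θ T))` and `Frob_v^k ∈ C`. -/
noncomputable def classSum (S : Finset (HeightOneSpectrum (𝓞 K)))
    (frob : HeightOneSpectrum (𝓞 K) → G) (C : ConjClasses G) (γ θ T : ℝ) : ℂ :=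
  ∑ᶠ x ∈ {x : {v : HeightOneSpectrum (𝓞 K) // v ∉ S} × ℕ | 1 ≤ x.2 ∧
      (Ideal.absNorm x.1.1.asIdeal : ℝ) ^ x.2 ≤ Real.exp (Real.exp (θ * T)) ∧
      ConjClasses.mk (frob x.1.1 ^ x.2) = C},
    weight γ (x.2 * Real.log (Ideal.absNorm x.1.1.asIdeal) / T) / x.2

/-- `Λ_γ = ∫_0^∞ (e^{-t} - e^{iγt} / Γ(1 + t)) dt / t`. -/
noncomputable def lam (γ : ℝ) : ℂ :=
  ∫ t in Set.Ioi (0 : ℝ), (Real.exp (-t) - weight γ t) / t

end defs

section bridge

open Pool.Agent.R409.RC Pool.Agent.R409.RF Pool.Agent.R409.RG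

variable {K : Type} [Field K] [NumberField K] {G : Type} [Group G]
  {S : Finset (HeightOneSpectrum (𝓞 K))} {frob : HeightOneSpectrum (𝓞 K) → G}

theorem weight_eq {γ u : ℝ} : weight γ u = Pool.Agent.W187.S2.kk γ u := by
  unfold weight Pool.Agent.W187.S2.kk Pool.Agent.W189.ML.om
  have h1 : Complex.Gamma (1 + u) = ((Real.Gamma (1 + u) : ℝ) : ℂ) := by
    rw [← Complex.Gamma_ofReal]
    push_cast
    rfl
  rw [h1, div_eq_mul_inv]
  push_cast
  congr 2
  ring

theorem lam_eq (γ : ℝ) : lam γ = Pool.Agent.W187.UR.Lam γ := by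
  unfold lam Pool.Agent.W187.UR.Lam
  refine MeasureTheory.integral_congr_ae (Filter.Eventually.of_forall fun t => ?_)
  simp only
  rw [weight_eq]
  unfold Pool.Agent.W187.S2.kk Pool.Agent.W189.ML.om
  push_cast
  rfl

/-- the norms -/
noncomputable def qS (S : Finset (HeightOneSpectrum (𝓞 K)))
    (v : {v : HeightOneSpectrum (𝓞 K) // v ∉ S}) : ℝ := qv v.1

theorem qS_sum {σ : ℝ} (hσ : 1 < σ) : Summable fun v => qS S v ^ (-σ) :=
  (Pool.Agent.H921R2.TatePole.nm_summable (K := K) hσ).subtype _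

/-- the set of the pairs in the sums -/
def PS (S : Finset (HeightOneSpectrum (𝓞 K))) (θ T : ℝ) :
    Set ({v : HeightOneSpectrum (𝓞 K) // v ∉ S} × ℕ) :=
  {x | 1 ≤ x.2 ∧ qS S x.1 ^ x.2 ≤ Real.exp (Real.exp (θ * T))}

theorem PS_finite (θ T : ℝ) : (PS S θ T).Finite := by
  have E : XD (0 : ℝ) (qS S) (fun (_ : {v : HeightOneSpectrum (𝓞 K) // v ∉ S}) (_ : Fin 0) =>
      (0 : ℂ)) :=
    { two_le := fun v => two_le_qv v.1
      sum := fun σ hσ => qS_sum hσ
      norm_le := fun v j => j.elim0 }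
  have h1 := E.finite_fr (Real.exp (θ * T))
  refine (h1.image fun x => (x.1, x.2 + 1)).subset ?_
  rintro ⟨v, k⟩ ⟨h2, h3⟩
  refine ⟨(v, k - 1), ?_, by
    simp only [Prod.mk.injEq, true_and]
    have : 1 ≤ k := h2
    omega⟩
  show Pool.Agent.W189.LC.fr (qS S) (v, k - 1) ≤ _
  unfold Pool.Agent.W189.LC.fr
  simp only
  have h4 : ((k - 1 : ℕ) : ℝ) + 1 = k := by
    have : 1 ≤ k := h2
    rw [Nat.cast_sub this]
    push_cast
    ring
  rw [h4, ← Real.log_pow]
  exact (Real.log_le_iff_le_exp (pow_pos (E.q_pos v) k)).2 h3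

variable [Finite G]

/-- the character sum in terms of the class sums -/
theorem char_sum {n : ℕ} (ρ : G →* Matrix (Fin n) (Fin n) ℂ) (γ θ T : ℝ) :
    (∑ᶠ x ∈ PS S θ T, tterm (qS S) (fun v => ρ (frob v.1)) γ T x.1 x.2) =
      ∑ᶠ C : ConjClasses G, chi ρ C * classSum S frob C γ θ T := by
  classical
  have : Fintype G := Fintype.ofFinite G
  have : Fintype (ConjClasses G) := Fintype.ofFinite _
  have hchi : ∀ g : G, (ρ g).trace = chi ρ (ConjClasses.mk g) := by
    intro g
    unfold chi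
    have h1 : ConjClasses.mk (ConjClasses.mk g).out = ConjClasses.mk g := Quotient.out_eq _
    obtain ⟨c, hc⟩ := (ConjClasses.mk_eq_mk_iff_isConj.1 h1)
    have h2 : ρ g = ρ c * ρ (ConjClasses.mk g).out * ρ (c⁻¹ : Gˣ) := by
      rw [← map_mul, ← map_mul]
      congr 1
      have h3 := hc.eq
      rw [h3]
      simp
    rw [h2, Matrix.trace_mul_comm, ← Matrix.mul_assoc, ← map_mul]
    simp
  have hterm : ∀ x : {v : HeightOneSpectrum (𝓞 K) // v ∉ S} × ℕ,
      tterm (qS S) (fun v => ρ (frob v.1)) γ T x.1 x.2 =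
        chi ρ (ConjClasses.mk (frob x.1.1 ^ x.2)) *
          (weight γ (x.2 * Real.log (Ideal.absNorm x.1.1.asIdeal) / T) / x.2) := by
    intro x
    unfold tterm
    rw [← map_pow, hchi, weight_eq]
    unfold Pool.Agent.W187.S2.kk qS qv
    push_cast
    ring
  simp only [hterm]
  set Z := (PS_finite (S := S) θ T).toFinset with hZ
  have hZm : ∀ x, x ∈ Z ↔ x ∈ PS S θ T := fun x => Set.Finite.mem_toFinset _
  have hrr : (∑ᶠ C : ConjClasses G, chi ρ C * classSum S frob C γ θ T) =
      ∑ C : ConjClasses G, chi ρ C * classSum S frob C γ θ T := finsum_eq_sum_of_fintype _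
  rw [hrr]
  have hcls : ∀ C : ConjClasses G, classSum S frob C γ θ T =
      ∑ x ∈ Z, if ConjClasses.mk (frob x.1.1 ^ x.2) = C then
        weight γ (x.2 * Real.log (Ideal.absNorm x.1.1.asIdeal) / T) / x.2 else 0 := by
    intro C
    unfold classSum
    rw [← Finset.sum_filter]
    refine finsum_mem_eq_sum_of_inter_support_eq _ ?_
    ext x
    simp only [Set.mem_inter_iff, Finset.coe_filter, Set.mem_ofPred_eq, hZm]
    unfold PS qS qv
    simp only [Set.mem_ofPred_eq]
    tauto
  simp only [hcls, Finset.mul_sum]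
  rw [Finset.sum_comm]
  have hl : (∑ᶠ x ∈ PS S θ T, chi ρ (ConjClasses.mk (frob x.1.1 ^ x.2)) *
      (weight γ (x.2 * Real.log (Ideal.absNorm x.1.1.asIdeal) / T) / x.2)) =
      ∑ x ∈ Z, chi ρ (ConjClasses.mk (frob x.1.1 ^ x.2)) *
        (weight γ (x.2 * Real.log (Ideal.absNorm x.1.1.asIdeal) / T) / x.2) := by
    refine finsum_mem_eq_sum_of_inter_support_eq _ ?_
    ext x
    simp only [Set.mem_inter_iff, Finset.mem_coe, hZm]
  rw [hl]
  refine Finset.sum_congr rfl fun x _ => ?_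
  simp

/-- the law for a representation -/
theorem law_rep {n : ℕ} {ρ : G →* Matrix (Fin n) (Fin n) ℂ} {F : ℂ → ℂ}
    (hF : IsContinuation S frob ρ F) :
    ∃ (m : ℤ) (r₀ : ℂ), meromorphicOrderAt F 0 = m ∧
      Complex.exp r₀ = meromorphicTrailingCoeffAt F 0 ∧
      ∀ γ θ : ℝ, Real.pi / 2 < γ → 1 < θ →
        Law (fun T => ∑ᶠ C : ConjClasses G, chi ρ C * classSum S frob C γ θ T) m r₀
          (Pool.Agent.W187.UR.Lam γ) := by
  have hfin : ∀ g : G, g ^ Nat.card G = 1 := fun g => pow_card_eq_one'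
  have hcard : Nat.card G ≠ 0 := Nat.card_pos.ne'
  obtain ⟨m, r₀, hm, hr, hlaw⟩ := law_mat (P := {v : HeightOneSpectrum (𝓞 K) // v ∉ S})
    (q := qS S) (A := fun v => ρ (frob v.1)) (F := F) (fun v => two_le_qv v.1)
    (fun σ hσ => qS_sum hσ) (fun v => ⟨Nat.card G, hcard, by
      rw [← map_pow, hfin, map_one]⟩) hF.1 (fun s hs => by
      rw [hF.2 s hs]
      unfold LFun qS qv
      refine tprod_congr fun v => ?_
      push_cast
      rfl)
  refine ⟨m, r₀, hm, hr, fun γ θ hγ hθ => ?_⟩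
  have h1 := hlaw γ θ hγ hθ
  have h2 : (fun T : ℝ => ∑ᶠ C : ConjClasses G, chi ρ C * classSum S frob C γ θ T) =
      fun T => ∑ᶠ x ∈ {x : {v : HeightOneSpectrum (𝓞 K) // v ∉ S} × ℕ | 1 ≤ x.2 ∧
        qS S x.1 ^ x.2 ≤ Real.exp (Real.exp (θ * T))},
        tterm (qS S) (fun v => ρ (frob v.1)) γ T x.1 x.2 := by
    funext T
    exact (char_sum ρ γ θ T).symm
  rw [h2]
  exact h1

end bridge

/-- **Mertens constants at `s = 0` and the leading terms of Artin L-series.** Let `K` be a number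
field, `S` a finite set of finite primes of `K`, `frob` a function from the primes of `K` to a finite
group `G` (for a Galois extension with group `G` the Frobenius elements), and `ρ_i` finitely many
representations of `G` whose characters span the class functions (for example all the irreducible
ones), such that their L-series have continuations which are meromorphic on the real segment `[0, 1]`.
Then there are constants `c_C`, `m_C` for the conjugacy classes of `G` such that

* `N_C(T) = c_C - m_C (log T - Λ_γ) + O(1/T)` for all `C`, `γ > π/2`, `θ > 1`;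
* for every representation `τ` of `G` and every such continuation `f` of `L_S(s, τ)` the order of `f` at
  `0` is `∑_C χ(C) m_C`, and its leading coefficient is `exp (∑_C χ(C) c_C)`, `χ` the character of `τ`;
* for two representations `τ`, `τ'` with continuations `f`, `f'`, an automorphism `σ` of `ℂ` and complex
  numbers `R`, `R'` (the regulators): `σ(R / L*(0, τ)) = R' / L*(0, τ')` if and only if
  `σ(R exp (- ∑_C χ(C) c_C)) = R' exp (- ∑_C χ'(C) c_C)`. -/
theorem result (K : Type) [Field K] [NumberField K] (G : Type) [Group G] [Finite G]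
    (S : Finset (HeightOneSpectrum (𝓞 K))) (frob : HeightOneSpectrum (𝓞 K) → G)
    (ι : Type) [Fintype ι] (n : ι → ℕ) (ρ : ∀ i, G →* Matrix (Fin (n i)) (Fin (n i)) ℂ)
    (_ : ∀ C : ConjClasses G, ∃ a : ι → ℂ, ∀ D : ConjClasses G,
      ∑ i, a i * chi (ρ i) D = Set.indicator {C} (fun _ => 1) D)
    (F : ι → ℂ → ℂ) (_ : ∀ i, IsContinuation S frob (ρ i) (F i)) :
    ∃ c m : ConjClasses G → ℂ,
      (∀ γ θ : ℝ, Real.pi / 2 < γ → 1 < θ → ∀ C, ∃ B T₀ : ℝ, ∀ T : ℝ, T₀ ≤ T →
        ‖classSum S frob C γ θ T - (c C - m C * (Real.log T - lam γ))‖ ≤ B / T) ∧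
      (∀ (d : ℕ) (τ : G →* Matrix (Fin d) (Fin d) ℂ) (f : ℂ → ℂ), IsContinuation S frob τ f →
        (∃ r : ℤ, meromorphicOrderAt f 0 = r ∧ (r : ℂ) = ∑ᶠ C, chi τ C * m C) ∧
        meromorphicTrailingCoeffAt f 0 = Complex.exp (∑ᶠ C, chi τ C * c C)) ∧
      ∀ (d d' : ℕ) (τ : G →* Matrix (Fin d) (Fin d) ℂ) (τ' : G →* Matrix (Fin d') (Fin d') ℂ)
        (f f' : ℂ → ℂ), IsContinuation S frob τ f → IsContinuation S frob τ' f' →
        ∀ (σ : ℂ ≃+* ℂ) (R R' : ℂ),
          σ (R / meromorphicTrailingCoeffAt f 0) = R' / meromorphicTrailingCoeffAt f' 0 ↔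
          σ (R * Complex.exp (-∑ᶠ C, chi τ C * c C)) =
            R' * Complex.exp (-∑ᶠ C, chi τ' C * c C) := by
  classical
  rename_i hspan hF
  have : Fintype G := Fintype.ofFinite G
  have : Fintype (ConjClasses G) := Fintype.ofFinite _
  choose a ha using hspan
  choose r l hr hl hlaw using fun i => law_rep (hF i)
  set c : ConjClasses G → ℂ := fun C => ∑ i, a C i * l i with hc
  set m : ConjClasses G → ℂ := fun C => ∑ i, a C i * r i with hm
  -- the class sums in terms of the character sums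
  have hcs : ∀ (C : ConjClasses G) (γ θ T : ℝ), classSum S frob C γ θ T =
      ∑ i, a C i * ∑ᶠ D : ConjClasses G, chi (ρ i) D * classSum S frob D γ θ T := by
    intro C γ θ T
    simp only [finsum_eq_sum_of_fintype, Finset.mul_sum]
    rw [Finset.sum_comm]
    have h1 : ∀ D : ConjClasses G, ∑ i, a C i * (chi (ρ i) D * classSum S frob D γ θ T) =
        Set.indicator {C} (fun _ => (1 : ℂ)) D * classSum S frob D γ θ T := by
      intro D
      rw [← ha C D, Finset.sum_mul]
      exact Finset.sum_congr rfl fun i _ => by ring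
    simp only [h1]
    simp [Set.indicator_apply]
  have hasym : ∀ γ θ : ℝ, Real.pi / 2 < γ → 1 < θ → ∀ C, ∃ B T₀ : ℝ, 0 ≤ B ∧ 1 ≤ T₀ ∧
      ∀ T : ℝ, T₀ ≤ T →
        ‖classSum S frob C γ θ T - (c C - m C * (Real.log T - lam γ))‖ ≤ B / T := by
    intro γ θ hγ hθ C
    choose B T₀ hB hT₀ hT using fun i => hlaw i γ θ hγ hθ
    refine ⟨∑ i, ‖a C i‖ * B i, 1 + ∑ i, T₀ i, Finset.sum_nonneg fun i _ =>
      mul_nonneg (norm_nonneg _) (hB i), ?_, fun T hTT => ?_⟩
    · have : 0 ≤ ∑ i, T₀ i := Finset.sum_nonneg fun i _ => by linarith [hT₀ i]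
      linarith
    have h1 : ∀ i, T₀ i ≤ T := by
      intro i
      have : T₀ i ≤ ∑ i, T₀ i := Finset.single_le_sum (fun i _ => by linarith [hT₀ i])
        (Finset.mem_univ i)
      linarith
    have h2 : classSum S frob C γ θ T - (c C - m C * (Real.log T - lam γ)) =
        ∑ i, a C i * ((∑ᶠ D : ConjClasses G, chi (ρ i) D * classSum S frob D γ θ T) -
          (l i - r i * (Real.log T - lam γ))) := by
      rw [hcs C γ θ T, hc, hm]
      simp only [mul_sub, Finset.sum_sub_distrib, Finset.sum_mul]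
      congr 2
      refine congrArg₂ _ ?_ ?_ <;> exact Finset.sum_congr rfl fun i _ => by ring
    rw [h2, Finset.sum_div]
    refine norm_sum_le_of_le _ fun i _ => ?_
    rw [norm_mul, mul_div_assoc]
    refine mul_le_mul_of_nonneg_left ?_ (norm_nonneg _)
    rw [lam_eq]
    exact hT i T (h1 i)
  have hval : ∀ (d : ℕ) (τ : G →* Matrix (Fin d) (Fin d) ℂ) (f : ℂ → ℂ),
      IsContinuation S frob τ f →
      (∃ r : ℤ, meromorphicOrderAt f 0 = r ∧ (r : ℂ) = ∑ᶠ C, chi τ C * m C) ∧
        meromorphicTrailingCoeffAt f 0 = Complex.exp (∑ᶠ C, chi τ C * c C) := by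
    intro d τ f hf
    obtain ⟨k, k₀, hk, hk0, hklaw⟩ := law_rep hf
    have hpi : Real.pi / 2 < Real.pi := by linarith [Real.pi_pos]
    have h1 := (hklaw Real.pi 2 hpi (by norm_num)).tendsto
    have h2 : ∀ C, Tendsto (fun T : ℝ => classSum S frob C Real.pi 2 T -
        (c C - m C * (Real.log T - lam Real.pi))) atTop (𝓝 0) := by
      intro C
      obtain ⟨B, T₀, hB, hT₀, hT⟩ := hasym Real.pi 2 hpi (by norm_num) C
      refine squeeze_zero_norm' ?_ (tendsto_const_nhds.div_atTop tendsto_id : Tendsto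
        (fun T : ℝ => B / T) atTop (𝓝 0))
      filter_upwards [eventually_ge_atTop T₀] with T hT' using hT T hT'
    have h3 : Tendsto (fun T : ℝ => ∑ C, chi τ C * (classSum S frob C Real.pi 2 T -
        (c C - m C * (Real.log T - lam Real.pi)))) atTop (𝓝 (∑ C : ConjClasses G, chi τ C * 0)) :=
      tendsto_finsetSum _ fun C _ => (h2 C).const_mul _
    have h4 := h3.sub h1
    simp only [mul_zero, Finset.sum_const_zero, sub_zero] at h4
    have h5 : (fun T : ℝ => (∑ C, chi τ C * (classSum S frob C Real.pi 2 T -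
        (c C - m C * (Real.log T - lam Real.pi)))) -
        ((∑ᶠ C : ConjClasses G, chi τ C * classSum S frob C Real.pi 2 T) -
          (k₀ - k * (Real.log T - Pool.Agent.W187.UR.Lam Real.pi)))) =
        fun T : ℝ => (k₀ - ∑ᶠ C, chi τ C * c C) - ((k : ℂ) - ∑ᶠ C, chi τ C * m C) *
          (Real.log T - Pool.Agent.W187.UR.Lam Real.pi) := by
      funext T
      simp only [finsum_eq_sum_of_fintype, mul_sub, Finset.sum_sub_distrib, lam_eq, sub_mul,
        Finset.sum_mul]
      have e1 : ∀ z : ℂ, ∑ C : ConjClasses G, chi τ C * (m C * z) =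
          ∑ C : ConjClasses G, chi τ C * m C * z := fun z =>
        Finset.sum_congr rfl fun C _ => by ring
      simp only [e1]
      ring
    rw [h5] at h4
    obtain ⟨h6, h7⟩ := Pool.Agent.R409.RG.const_unique h4
    refine ⟨⟨k, hk, by linear_combination h6⟩, ?_⟩
    rw [← hk0]
    congr 1
    linear_combination h7
  refine ⟨c, m, fun γ θ hγ hθ C => ?_, hval, fun d d' τ τ' f f' hf hf' σ R R' => ?_⟩
  · obtain ⟨B, T₀, -, -, hT⟩ := hasym γ θ hγ hθ C
    exact ⟨B, T₀, hT⟩
  · rw [(hval d τ f hf).2, (hval d' τ' f' hf').2, Complex.exp_neg, Complex.exp_neg,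
      ← div_eq_mul_inv, ← div_eq_mul_inv]

end Pool.Agent.Results.MP_46b841_nt.ClassConstants
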