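import Pool.Agent.R904.DG.FormalMain

/-!
# Stark's conjecture: base fields of large degree suffice

For coprime `m, n ≥ 1` (for example `m = 2^100`, `n = 3^100`) and every number field `K` there are
finitely many finite extensions `Z_i / K`, all of degree divisible by `m` or by `n`, such that for every
Artin character `χ` of `K` Stark's conjecture for `χ` follows from Stark's conjecture for the
restrictions of `χ` to the `Z_i`. Hence Stark's conjecture for all number fields whose degree is
divisible by `m` or by `n` (and characters of a given dimension, e.g. linear ones) implies the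
conjecture for all number fields (and characters of this dimension). No root of unity is lost.
-/

set_option autoImplicit false

open Pool.Agent.R904.DG

namespace Pool.Agent.Results.MP_46b841_nt.LargeBaseFields

/-- An invariant of Artin characters whose values are functions of `σ ∈ Aut(ℂ)`. For Stark's
conjecture this is `u ψ σ = A_S(ψ, φ)^σ / A_S(ψ^σ, φ)`, which depends neither on `S` nor on `φ`, and
which satisfies the Artin formalism since `A_S` is additive and invariant under induction. -/
abbrev StarkInvariant : Type 1 := Invariant ((ℂ ≃+* ℂ) → ℂˣ)

/-- Stark's conjecture for the character `ψ` of `F`: `A_S(ψ, φ)^σ = A_S(ψ^σ, φ)` for all `σ`. -/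
def Stark (I : StarkInvariant) {F : Type} [Field F] [NumberField F] {d : ℕ} (ψ : I.C F d) : Prop :=
  ∀ σ : ℂ ≃+* ℂ, I.u ψ σ = 1

/-- Let `m, n ≥ 1` be coprime.

1. Every number field `K` has finitely many finite extensions `Z_i`, the degree of each divisible by
   `m` and dividing `m²`, or divisible by `n` and dividing `n²`, such that for all Artin characters
   `χ` of `K` Stark's conjecture for the restrictions of `χ` to the `Z_i` implies the one for `χ`.
2. If Stark's conjecture holds for all number fields whose degree over `ℚ` is divisible by `m` or by
   `n`, and all their Artin characters of dimension `d`, then it holds for all number fields and all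
   their Artin characters of dimension `d`. -/
theorem result (m n : ℕ) (hm : 0 < m) (hn : 0 < n) (hmn : Nat.Coprime m n) :
    (∀ (K : Type) [Field K] [NumberField K], ∃ (r : ℕ) (Z : Fin r → Ext K),
      (∀ i, DegreeCond m n (Z i)) ∧ ∀ (I : StarkInvariant) (d : ℕ) (χ : I.C K d),
        (∀ i, Stark I (I.res (Z i) χ)) → Stark I χ) ∧
    (∀ (I : StarkInvariant) (d : ℕ),
      (∀ (F : Type) [Field F] [NumberField F],
        (m ∣ Module.finrank ℚ F ∨ n ∣ Module.finrank ℚ F) → ∀ ψ : I.C F d, Stark I ψ) →
      ∀ (K : Type) [Field K] [NumberField K] (χ : I.C K d), Stark I χ) := by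
  constructor
  · intro K _ _
    obtain ⟨r, Z, hd, h⟩ := invariant_family (X := (ℂ ≃+* ℂ) → ℂˣ) K hm hn hmn
    exact ⟨r, Z, hd, fun I d χ hZ σ => congrFun (h I d χ fun i => funext (hZ i)) σ⟩
  · intro I d h K _ _ χ σ
    exact congrFun (invariant_all I hm hn hmn (fun F _ _ hF ψ => funext (h F hF ψ)) K χ) σ

end Pool.Agent.Results.MP_46b841_nt.LargeBaseFields
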