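import Pool.Agent.R386.RP.Fin

/-!
# Stark's conjecture and the real places of the base field

Number fields are the finite extensions of `ℚ` inside the algebraic closure `Q̄` of `ℚ`, and the linear
characters of a number field `F` are the homomorphisms `Gal(Q̄/F) → ℂˣ` which are trivial on
`Gal(Q̄/L)` for a number field `L`. Characters of `Gal(Q̄/F)` are extended by zero to functions on
`Gal(Q̄/ℚ)`. By Brauer's induction theorem the group of virtual Artin characters of `K` is generated by
the characters induced from linear characters of finite extensions of `K`.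

Stark's conjecture says `A_S(χ, φ)^σ = A_S(χ^σ, φ)`. The quotient
`u(χ)(σ) = A_S(χ, φ)^σ / A_S(χ^σ, φ)` depends neither on `S` nor on `φ`, is multiplicative in `χ`,
invariant under induction, and equal to `1` for trivial characters. The results hold for all families
of elements `u(χ)(σ)` of `ℂˣ` with these (known) properties:

1. If the conjecture holds for all linear characters which are odd at every real place of their base
   field, then it holds for all Artin characters of all number fields. The same holds with even in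
   place of odd. Both are also true for characters killed by a given even integer.
2. If the conjecture holds for all linear characters of all totally complex number fields, then it
   holds up to sign for all Artin characters of all number fields: `A_S(χ, φ)^σ = ± A_S(χ^σ, φ)`. It
   holds exactly for all linear characters of order not divisible by `4`.

The proof of 2 uses, for a cyclic extension `L / K` of odd prime degree `p` of a field with real places,
totally complex extensions of `K` of degree `2 ^ (p - 1)` inside Galois extensions with group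
`C₂ ≀ C_p`, and a relation between monomial characters of this group. For characters of `2`-power order
relations in dihedral extensions of degree `8` are used: for even `φ` of order dividing `2 ^ (j + 1)`
and quadratic `e` they give `u(φ e) = u(φ) ^ (1 - 2 ^ j)`, hence `u(φ) ^ 2 = 1`.
-/

set_option autoImplicit false

open Pool.Agent.R386.RP (AbsGal SubField IsComplexConj)

namespace Pool.Agent.Results.MP_46b841_nt.RealPlaces

/-- `ψ` is trivial on `Gal(Q̄/L)` for a number field `L`: a linear Artin character of `F`. -/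
def IsArtin {F : SubField ℚ} (ψ : F.fixingSubgroup →* ℂˣ) : Prop :=
  ∃ L : SubField ℚ, FiniteDimensional ℚ L ∧ ∀ g : F.fixingSubgroup,
    (g : AbsGal ℚ) ∈ L.fixingSubgroup → ψ g = 1

/-- The linear character `ψ` of `Gal(Q̄/F)`, extended by zero to a function on `Gal(Q̄/ℚ)`. -/
noncomputable def fn {F : SubField ℚ} (ψ : F.fixingSubgroup →* ℂˣ) (g : AbsGal ℚ) : ℂ :=
  open Classical in if h : g ∈ F.fixingSubgroup then (ψ ⟨g, h⟩ : ℂ) else 0

/-- The character of `Gal(Q̄/K)` induced from the linear character `ψ` of `Gal(Q̄/F)`, for `K ≤ F`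
(extended by zero to a function on `Gal(Q̄/ℚ)`). -/
noncomputable def induced {F : SubField ℚ} (K : SubField ℚ) (ψ : F.fixingSubgroup →* ℂˣ)
    (g : AbsGal ℚ) : ℂ :=
  ∑ᶠ x : K.fixingSubgroup ⧸ F.fixingSubgroup.subgroupOf K.fixingSubgroup,
    fn ψ ((x.out : AbsGal ℚ)⁻¹ * g * (x.out : AbsGal ℚ))

/-- The virtual Artin characters of `K`: integral combinations of characters induced from linear
characters of finite extensions of `K` (by Brauer's theorem). -/
def VirtualCharacters (K : SubField ℚ) : AddSubgroup (AbsGal ℚ → ℂ) :=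
  AddSubgroup.closure {f | ∃ (F : SubField ℚ) (ψ : F.fixingSubgroup →* ℂˣ), FiniteDimensional ℚ F ∧
    K ≤ F ∧ IsArtin ψ ∧ f = induced K ψ}

/-- The properties of `u(χ)(σ) = A_S(χ, φ)^σ / A_S(χ^σ, φ)` for virtual Artin characters `χ` of number
fields and `σ ∈ Aut(ℂ)`: additivity, invariance under induction (from linear characters), and Stark's
conjecture for the trivial characters. -/
structure StarkInvariant where
  /-- the invariant -/
  u : SubField ℚ → (AbsGal ℚ → ℂ) → ((ℂ ≃+* ℂ) → ℂˣ)
  add : ∀ K : SubField ℚ, FiniteDimensional ℚ K → ∀ χ ∈ VirtualCharacters K,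
    ∀ χ' ∈ VirtualCharacters K, u K (χ + χ') = u K χ * u K χ'
  ind : ∀ K F : SubField ℚ, FiniteDimensional ℚ F → K ≤ F → ∀ ψ : F.fixingSubgroup →* ℂˣ,
    IsArtin ψ → u K (induced K ψ) = u F (fn ψ)
  triv : ∀ F : SubField ℚ, FiniteDimensional ℚ F → u F (fn (1 : F.fixingSubgroup →* ℂˣ)) = 1

/-- Stark's conjecture for the virtual character `χ` of `F`. -/
def Stark (I : StarkInvariant) (F : SubField ℚ) (χ : AbsGal ℚ → ℂ) : Prop :=
  ∀ σ : ℂ ≃+* ℂ, I.u F χ σ = 1

/-- `ψ(c) = -1` for all complex conjugations `c` in `Gal(Q̄/F)`, i.e. `ψ` is odd at all real places of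
`F`. -/
def OddAtRealPlaces {F : SubField ℚ} (ψ : F.fixingSubgroup →* ℂˣ) : Prop :=
  ∀ c, IsComplexConj c → ∀ h : c ∈ F.fixingSubgroup, ψ ⟨c, h⟩ = -1

/-- `ψ(c) = 1` for all complex conjugations `c` in `Gal(Q̄/F)`, i.e. `ψ` is even at all real places of
`F`. -/
def EvenAtRealPlaces {F : SubField ℚ} (ψ : F.fixingSubgroup →* ℂˣ) : Prop :=
  ∀ c, IsComplexConj c → ∀ h : c ∈ F.fixingSubgroup, ψ ⟨c, h⟩ = 1

/-- `F` is totally complex: it has no embedding into `ℂ` with real values. -/
def TotallyComplex (F : SubField ℚ) : Prop :=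
  ¬ ∃ τ : F →+* ℂ, ∀ z, (starRingEnd ℂ) (τ z) = τ z

open Pool.Agent.R386.RP in
/-- the invariant as used in the helper files -/
def toN (I : StarkInvariant) : NInv ((ℂ ≃+* ℂ) → ℂˣ) where
  u := I.u
  add := I.add
  ind' := I.ind

open Pool.Agent.R386.RP in
theorem result (I : StarkInvariant) :
    -- odd at all real places
    ((∀ F : SubField ℚ, FiniteDimensional ℚ F → ∀ ψ : F.fixingSubgroup →* ℂˣ, IsArtin ψ →
        OddAtRealPlaces ψ → Stark I F (fn ψ)) →
      ∀ K : SubField ℚ, FiniteDimensional ℚ K → ∀ χ ∈ VirtualCharacters K, Stark I K χ) ∧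
    -- even at all real places
    ((∀ F : SubField ℚ, FiniteDimensional ℚ F → ∀ ψ : F.fixingSubgroup →* ℂˣ, IsArtin ψ →
        EvenAtRealPlaces ψ → Stark I F (fn ψ)) →
      ∀ K : SubField ℚ, FiniteDimensional ℚ K → ∀ χ ∈ VirtualCharacters K, Stark I K χ) ∧
    -- the same for characters of bounded exponent
    (∀ n : ℕ, Even n →
      (∀ F : SubField ℚ, FiniteDimensional ℚ F → ∀ ψ : F.fixingSubgroup →* ℂˣ, IsArtin ψ →
        ψ ^ n = 1 → OddAtRealPlaces ψ → Stark I F (fn ψ)) ∨
      (∀ F : SubField ℚ, FiniteDimensional ℚ F → ∀ ψ : F.fixingSubgroup →* ℂˣ, IsArtin ψ →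
        ψ ^ n = 1 → EvenAtRealPlaces ψ → Stark I F (fn ψ)) →
      ∀ F : SubField ℚ, FiniteDimensional ℚ F → ∀ ψ : F.fixingSubgroup →* ℂˣ, IsArtin ψ →
        ψ ^ n = 1 → Stark I F (fn ψ)) ∧
    -- totally complex base fields: all characters
    ((∀ F : SubField ℚ, FiniteDimensional ℚ F → TotallyComplex F →
        ∀ ψ : F.fixingSubgroup →* ℂˣ, IsArtin ψ → Stark I F (fn ψ)) →
      ∀ K : SubField ℚ, FiniteDimensional ℚ K → ∀ χ ∈ VirtualCharacters K, ∀ σ : ℂ ≃+* ℂ,
        I.u K χ σ = 1 ∨ I.u K χ σ = -1) ∧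
    -- totally complex base fields: linear characters of bounded exponent
    (∀ n : ℕ, 0 < n → Even n →
      (∀ F : SubField ℚ, FiniteDimensional ℚ F → TotallyComplex F →
        ∀ ψ : F.fixingSubgroup →* ℂˣ, IsArtin ψ → ψ ^ n = 1 → Stark I F (fn ψ)) →
      ∀ F : SubField ℚ, FiniteDimensional ℚ F → ∀ ψ : F.fixingSubgroup →* ℂˣ, IsArtin ψ →
        ψ ^ n = 1 → (∀ σ : ℂ ≃+* ℂ, I.u F (fn ψ) σ = 1 ∨ I.u F (fn ψ) σ = -1) ∧
          (¬ 4 ∣ n → Stark I F (fn ψ))) := by
  have hsq : ∀ z : (ℂ ≃+* ℂ) → ℂˣ, z ^ 2 = 1 → ∀ σ, z σ = 1 ∨ z σ = -1 := by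
    intro z hz σ
    apply pm_of_sq
    have h := congrFun hz σ
    rw [Pi.pow_apply, Pi.one_apply, pow_two] at h
    exact h
  refine ⟨?_, ?_, ?_, ?_, ?_⟩
  · intro hyp K hK χ hχ σ
    refine congrFun (n_virtual (toN I) K hK ?_ χ hχ) σ
    intro F hF _ ψ hψ
    obtain ⟨n, _, hn⟩ := ((art_iff ψ).1 hψ).finite
    refine n_odd (toN I) (E := 2 * n) (even_two_mul n) ?_ F hF ψ hψ (pow_two_mul hn)
    intro F' hF' ψ' h1 _ h3
    exact funext (hyp F' hF' ψ' h1 h3)
  · intro hyp K hK χ hχ σ
    refine congrFun (n_virtual (toN I) K hK ?_ χ hχ) σ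
    intro F hF _ ψ hψ
    obtain ⟨n, _, hn⟩ := ((art_iff ψ).1 hψ).finite
    refine n_even (toN I) (E := 2 * n) (even_two_mul n) ?_ F hF ψ hψ (pow_two_mul hn)
    intro F' hF' ψ' h1 _ h3
    exact funext (hyp F' hF' ψ' h1 h3)
  · rintro n hn (hyp | hyp) F hF ψ hψ hψn σ
    · exact congrFun (n_odd (toN I) hn (fun F' hF' ψ' h1 h2 h3 => funext (hyp F' hF' ψ' h1 h2 h3))
        F hF ψ hψ hψn) σ
    · exact congrFun (n_even (toN I) hn (fun F' hF' ψ' h1 h2 h3 => funext (hyp F' hF' ψ' h1 h2 h3))
        F hF ψ hψ hψn) σ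
  · intro hyp K hK χ hχ
    refine hsq _ (n_virtual (toN I).sq K hK ?_ χ hχ)
    intro F hF _ ψ hψ
    obtain ⟨n, hn0, hn⟩ := ((art_iff ψ).1 hψ).finite
    exact (n_complex (toN I) I.triv (E := 2 * n) (by omega) (even_two_mul n)
      (fun F' hF' h0 ψ' h1 _ => funext (hyp F' hF' h0 ψ' h1)) F hF ψ hψ (pow_two_mul hn)).1
  · intro n hn0 hn hyp F hF ψ hψ hψn
    obtain ⟨h1, h2⟩ := n_complex (toN I) I.triv hn0 hn
      (fun F' hF' h0 ψ' h1 h2 => funext (hyp F' hF' h0 ψ' h1 h2)) F hF ψ hψ hψn
    exact ⟨hsq _ h1, fun h4 σ => congrFun (h2 h4) σ⟩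

end Pool.Agent.Results.MP_46b841_nt.RealPlaces
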