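import Pool.Agent.R477.TC.Stat

/-!
# Stark's conjecture: reduction to totally complex base fields

For every linear character `ψ` of odd order of a number field `K` there is a totally complex
extension `F` of `K` of 2-power degree such that `η - 1 = Ind_F^K(η|F) - Ind_F^K(1)`, i.e.
`L(s, η) / ζ_K(s) = L(s, η|F) / ζ_F(s)`, for all powers `η` of `ψ`. Hence Stark's conjecture for `η` is
equivalent to Stark's conjecture for `η|F`, and Stark's conjecture for all linear characters (hence
for all Artin characters, by Brauer's theorem) follows from Stark's conjecture for the linear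
characters of totally complex fields and for the linear characters of order `4, 8, 16, …` of fields
with a real place. No root of unity is lost.

Number fields are the finite subfields of `Om = AlgebraicClosure ℚ`. Number fields (`NumField`), their
absolute Galois groups (`G`), linear Artin characters (`Chr`), the induced characters (`induced`) and
the invariants which satisfy the Artin formalism (`Invariant`) are defined in `R477/TC/Stat`.
-/

set_option autoImplicit false

open Pool.Agent.R477.TC

namespace Pool.Agent.Results.MP_46b841_nt.TotallyComplexBase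

/-- An invariant of linear Artin characters whose values are functions of `σ ∈ Aut(ℂ)`, which
satisfies the Artin formalism and is trivial on trivial characters. For Stark's conjecture this is
`u K ψ σ = A_S(ψ, φ)^σ / A_S(ψ^σ, φ)`, which depends neither on `S` nor on `φ`; it satisfies the Artin
formalism since `A_S` is additive and invariant under induction and inflation, and it is trivial on
trivial characters by the analytic class number formula. -/
structure StarkInvariant where
  I : Invariant ((ℂ ≃+* ℂ) → ℂˣ)
  one : ∀ K : NumField, I.u K (Chr.one K) = 1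

/-- Stark's conjecture for the character `ψ` of `K`: `A_S(ψ, φ)^σ = A_S(ψ^σ, φ)` for all `σ`. -/
def Stark (U : StarkInvariant) {K : NumField} (ψ : Chr K) : Prop :=
  ∀ σ : ℂ ≃+* ℂ, U.I.u K ψ σ = 1

/-- 1. Let `ψ` be a linear character of odd order of the number field `K`. There is a totally complex
   extension `F` of `K` whose degree is a power of two, such that for all linear characters `θ` of
   `K` and all `j`

   * `θψ^j - θ = Ind_F^K((θψ^j)|F) - Ind_F^K(θ|F)`;
   * `u(θψ^j) / u(θ) = u((θψ^j)|F) / u(θ|F)` for every invariant `u` which satisfies the Artin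
     formalism;
   * Stark's conjecture for `ψ^j` is equivalent to Stark's conjecture for `ψ^j|F`.

2. If Stark's conjecture holds for all linear characters of totally complex number fields, and for
   the linear characters of 2-power order at least four of the number fields with a real place, then
   it holds for all linear characters of all number fields. -/
theorem result :
    (∀ (K : NumField) (ψ : Chr K) (m : ℕ), Odd m → ψ.PowTrivial m →
      ∃ (F : NumField) (h : K.Le F) (k : ℕ), F.TotallyComplex ∧ F.deg = 2 ^ k * K.deg ∧
        (∀ (θ : Chr K) (j : ℤ) (g : K.G), (θ.mul (ψ.pow j)).val g - θ.val g =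
          ((θ.mul (ψ.pow j)).res h).induced K g - (θ.res h).induced K g) ∧
        (∀ (X : Type) [CommGroup X] (I : Invariant X) (θ : Chr K) (j : ℤ),
          I.u K (θ.mul (ψ.pow j)) / I.u K θ =
            I.u F ((θ.mul (ψ.pow j)).res h) / I.u F (θ.res h)) ∧
        (∀ (U : StarkInvariant) (j : ℤ), Stark U (ψ.pow j) ↔ Stark U ((ψ.pow j).res h))) ∧
    (∀ U : StarkInvariant, (∀ F : NumField, F.TotallyComplex → ∀ ψ : Chr F, Stark U ψ) →
      (∀ K : NumField, ¬ K.TotallyComplex → ∀ θ : Chr K, (∃ k, θ.PowTrivial (2 ^ k)) →
        ¬ θ.PowTrivial 2 → Stark U θ) →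
      ∀ (K : NumField) (ψ : Chr K), Stark U ψ) := by
  refine ⟨fun K ψ m hm hψ => ?_, fun U hc h2 K ψ σ => ?_⟩
  · obtain ⟨F, hF, k, htc, hk, hid, hu⟩ := mainB K ψ m hm hψ
    refine ⟨F, hF, k, htc, hk, hid, hu, fun U j => ?_⟩
    have h := hu _ U.I (Chr.one K) j
    have e1 : (Chr.one K).mul (ψ.pow j) = ψ.pow j := Chr.one_mul _
    have e2 : U.I.u F (Chr.res hF (Chr.one K)) = 1 := U.one F
    rw [e1, U.one K, e2, div_one, div_one] at h
    unfold Stark
    rw [h]
  · exact congrFun (reductionB U.I U.one (fun F hFc χ => funext (hc F hFc χ))
      (fun F hFc χ h3 h4 => funext (h2 F hFc χ h3 h4)) K ψ) σ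

end Pool.Agent.Results.MP_46b841_nt.TotallyComplexBase
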